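import Pool.Agent.W5h69.PT.Q1

/-!
# Q1, perfect subgroups and groups of deficiency one and weight one

Definitions (`Pool.Agent.R655.LI.Defs`, `Pool.Agent.W5h69.PT.Rad`, `.Q1`):

* `Cx`: a 2-complex with one vertex, 1-cells `V`, 2-cells `R`, attaching words `r : R → FreeGroup V`
  (no finiteness assumption), i.e. a group presentation; `K.Pi` its fundamental group (the group of
  the presentation); `L.Contractible`: `π₁(L) = 1` and the integral boundary operator `C₂ → C₁` is
  injective; `L.IsFin`: finitely many cells; `Sub K L`: `K` is a subcomplex of `L`; `L.del e` is `L`
  without the open 2-cell `e`;
* `LocInd G`: every nontrivial finitely generated subgroup of `G` maps onto `ℤ`;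
* `Question P`: for all contractible `L` with `P L` and all subcomplexes `K` of `L` the group `π₁(K)`
  is locally indicable (Q1 for one-vertex complexes);
* `OneCell L e`: `L` is contractible and `e` is attached along a 1-cell; `NN L e`: the commutator
  subgroup of `π₁(L - e)`;
* `NPerf N`: there are a finitely generated perfect subgroup `M` and an element `x ∈ M` such that `N` is
  the normal closure of `x`;
* `HasHomP N`: `N` has a nontrivial homomorphism to a group `A` such that, for some prime `p`, every
  nontrivial finitely generated subgroup of `A` has a nontrivial homomorphism to `ℤ/p`;
* `Def1 K t`: the presentation `K` is finite, has one generator more than relators, and its group is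
  the normal closure of the generator `t`.
-/

set_option autoImplicit false

namespace Pool.Agent.Results.MP_cf50d6_gt.DeficiencyOne

open Pool.Agent.R655.LI Pool.Agent.W5h69.PT Function

/-- (1) Q1 for finite complexes has a positive answer if and only if all groups `G` with a finite
presentation of deficiency one that are the normal closure of a generator are locally indicable, and
also if and only if for all these groups the commutator subgroup `[G, G]`, if nontrivial, is not the
normal closure of an element of a finitely generated perfect subgroup of `G`.

(2) Q1 (for all `L`, and for finite `L`) has a positive answer if and only if for all contractible `L`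
(with finitely many cells) and all 2-cells `e` attached along a 1-cell the commutator subgroup `N` of
`π₁(L - e)`, if nontrivial, is not the normal closure of an element of a finitely generated perfect
subgroup; it is enough to find a nontrivial homomorphism from `N` to a locally `p`-indicable group
for some prime `p`, in the case that `N` is perfect, nontrivial and the normal closure of an
element. -/
theorem result :
    ((Question Cx.IsFin ↔ ∀ (K : Cx) (t : K.V), Def1 K t → LocInd K.Pi) ∧
      (Question Cx.IsFin ↔ ∀ (K : Cx) (t : K.V), Def1 K t → NPerf (commutator K.Pi) →
        commutator K.Pi = ⊥)) ∧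
    (∀ P : Cx → Prop, (P = fun _ => True) ∨ P = Cx.IsFin →
      (Question P ↔ ∀ (L : Cx) (e : L.R), OneCell L e → P L → NPerf (NN L e) → NN L e = ⊥) ∧
      (Question P ↔ ∀ (L : Cx) (e : L.R), OneCell L e → P L → Perf (NN L e) →
        (∃ h, NGen (NN L e) h) → NN L e ≠ ⊥ → HasHomP (NN L e))) := by
  refine ⟨question_def1, fun P hP => ?_⟩
  have h : ∀ L L' : Cx, (L.IsFin → L'.IsFin) → P L → P L' := by
    rcases hP with rfl | rfl
    · exact fun _ _ _ h => h
    · exact fun _ _ h => h
  exact ⟨question_iff P h, question_iff' P h⟩

end Pool.Agent.Results.MP_cf50d6_gt.DeficiencyOne
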