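import Pool.Agent.W5h57.HC.Main

/-!
# Coverings in which every 2-cell is strictly highest at an edge

Definitions:

* `Cx`, `Cx.Pi`, `Sub K₀ K`, `Sub.map`, `LocInd` (`Pool.Agent.R655.LI.Defs`): one-vertex
  2-complexes `K` (1-cells `K.V`, 2-cells `K.R`, attaching words `K.r`, any number of cells), their
  fundamental groups, subcomplexes `K₀ ⊆ K`, the homomorphism `π₁(K₀) → π₁(K)` of the inclusion, and
  locally indicable groups;
* a set `E` with an action of `π₁(K)` is the fibre of a covering of `K`: its vertices are the
  elements of `E`, a path `p` (a word) leads from `v` to `p⁻¹ • v`, so that the fundamental group of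
  the component of `v` is the stabilizer of `v`; the 2-cells of the covering are the pairs `(v, s)`,
  `v ∈ E`, `s ∈ K.R`; the 1-cells are the pairs `(u, x)`, `u ∈ E` the initial vertex, `x ∈ K.V`;
* the letter `(x, b)` after the prefix `l` of the attaching word of `s` traverses in the boundary of
  `(v, s)` the 1-cell `((start l x b)⁻¹ • v, x)` (`Pool.Agent.W5h57.HC.start`);
* `Pool.Agent.W5h57.HC.Free`: in a finite set `T` of 2-cells the 2-cell `(v, s) ∈ T` is free: some
  1-cell which does not lie over `K₀` is traversed exactly once by the boundary of `(v, s)` and not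
  at all by the boundaries of the other elements of `T`;
* `Pool.Agent.W5h57.HC.Collapsible i E`: every nonempty finite set of 2-cells of the covering which
  do not lie over `K₀` contains a free one.
-/

set_option autoImplicit false

namespace Pool.Agent.Results.MP_cf50d6_gt.HighestCells

open Pool.Agent.R655.LI Pool.Agent.W5h57.HC Function

variable {K₀ K : Cx}

open Classical in
/-- The 2-cells of the covering which do not lie over `K₀` have heights in a linearly ordered set
such that the boundary of every such 2-cell `(v, s)` traverses a 1-cell, not over `K₀`, exactly once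
and `(v, s)` is strictly highest there: all other such 2-cells whose boundary traverses this 1-cell
have smaller heights. -/
def Highest (i : Sub K₀ K) (E : Type) [MulAction K.Pi E] : Prop :=
  ∃ (Ω : Type) (_ : LinearOrder Ω) (h : E → K.R → Ω), ∀ (v : E) (s : K.R), s ∉ Set.range i.c →
    ∃ (l₁ : List (K.V × Bool)) (x : K.V) (b : Bool) (l₂ : List (K.V × Bool)),
      (K.r s).toWord = l₁ ++ (x, b) :: l₂ ∧ x ∉ Set.range i.v ∧
      ∀ (v' : E) (s' : K.R) (l₁' : List (K.V × Bool)) (b' : Bool) (l₂' : List (K.V × Bool)),
        s' ∉ Set.range i.c → (K.r s').toWord = l₁' ++ (x, b') :: l₂' →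
        (psi K (start l₁' x b'))⁻¹ • v' = (psi K (start l₁ x b))⁻¹ • v →
        (v' = v ∧ s' = s ∧ l₁' = l₁) ∨ h v' s' < h v s

theorem collapsible_of_highest (i : Sub K₀ K) (E : Type) [MulAction K.Pi E]
    (h : Highest i E) : Collapsible i E := by
  classical
  obtain ⟨Ω, _, h, hh⟩ := h
  intro T hT hne
  -- the lowest 2-cell of `T` is free
  obtain ⟨c, hc, hmin⟩ := T.exists_min_image (fun c => h c.1 c.2) hne
  obtain ⟨l₁, x, b, l₂, hw, hx, hu⟩ := hh c.1 c.2 (hT c hc)
  refine ⟨c.1, c.2, hc, l₁, x, b, l₂, hw, hx, ?_⟩
  intro v' s' l₁' b' l₂' hmem hw' he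
  rcases hu v' s' l₁' b' l₂' (hT _ hmem) hw' he with h1 | h1
  · exact h1
  · exact absurd h1 (not_lt.2 (hmin (v', s') hmem))

/-- Let `K₀` be a subcomplex of the one-vertex 2-complex `K` and let `E` be the fibre of a covering
of `K` in which the 2-cells not over `K₀` have heights such that each of them is strictly highest at
an edge not over `K₀` (or, more generally, in which every nonempty finite set of such 2-cells has a
free member).  Then `π₁(K₀) → π₁(K)` is injective; if `π₁(K₀)` is locally indicable, then so are
the fundamental groups of the components of the covering; and then `π₁(K)` itself is locally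
indicable, provided that every nontrivial f.g. subgroup without fixed point in `E` has a nontrivial
homomorphism to a locally indicable group, in particular if the kernel of a homomorphism from
`π₁(K)` to a locally indicable group fixes a point of `E`. -/
theorem result (K₀ K : Cx) (i : Sub K₀ K) (E : Type) [MulAction K.Pi E] :
    (Highest i E → Collapsible i E) ∧
    (Collapsible i E →
      (Nonempty E → Injective i.map) ∧
      (LocInd K₀.Pi →
        (∀ v : E, LocInd (MulAction.stabilizer K.Pi v)) ∧
        ((∀ H : Subgroup K.Pi, H.FG → (∀ v : E, ∃ g ∈ H, g • v ≠ v) →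
            ∃ (A : Type) (_ : Group A) (f : H →* A), LocInd A ∧ f ≠ 1) → LocInd K.Pi) ∧
        (∀ (Γ : Type) [Group Γ] (φ : K.Pi →* Γ), LocInd Γ →
          (∃ v : E, ∀ g : K.Pi, φ g = 1 → g • v = v) → LocInd K.Pi))) := by
  refine ⟨collapsible_of_highest i E, fun hcol => ⟨fun ⟨v⟩ => inj i hcol v, fun h0 =>
    ⟨stab i hcol h0, total i hcol h0, ?_⟩⟩⟩
  intro Γ _ φ hΓ ⟨v, hv⟩
  refine total i hcol h0 fun H _ hH => ⟨Γ, inferInstance, φ.comp H.subtype, hΓ, fun h1 => ?_⟩
  obtain ⟨g, hg, hgv⟩ := hH v
  exact hgv (hv g (DFunLike.congr_fun h1 ⟨g, hg⟩))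

end Pool.Agent.Results.MP_cf50d6_gt.HighestCells
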