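import Pool.Agent.W5h69.PT.Q1

/-!
# Local indicability is decided by one prime

Definitions (`Pool.Agent.R655.LI.Defs`, `.Howie`, `Pool.Agent.W5h69.PT.Rad`):

* `Cx`: a 2-complex with one vertex, 1-cells `V`, 2-cells `R`, attaching words `r : R → FreeGroup V`
  (no finiteness assumption); `K.Pi` its fundamental group; `L.Contractible`: `π₁(L) = 1` and the
  integral boundary operator `C₂ → C₁` is injective; `L.IsFin`: finitely many cells; `Sub K L`: `K` is
  a subcomplex of `L`;
* `H2Zero p K`: the vectors of the exponent sums modulo `p` of the attaching words are linearly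
  independent over `ℤ/p`, i.e. `H₂(K; ℤ/p) = 0`;
* `LocInd G`: every nontrivial finitely generated subgroup of `G` maps onto `ℤ`;
* `PInd p G`: every nontrivial finitely generated subgroup of `G` has a nontrivial homomorphism to
  `ℤ/p` (a subgroup of index `p` that is normal);
* `PP P M`: `M` is finitely generated and has no nontrivial homomorphisms to `ℤ` and to `ℤ/p`, `p ∈ P`;
* `KillZ x`, `KillP p x`: `x` is in the kernel of all homomorphisms to locally indicable groups,
  respectively to locally `p`-indicable groups;
* `Question P`: for all contractible `L` with `P L` and all subcomplexes `K` of `L` the group `π₁(K)`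
  is locally indicable (Q1 for one-vertex complexes).
-/

set_option autoImplicit false

namespace Pool.Agent.Results.MP_cf50d6_gt.OnePrime

open Pool.Agent.R655.LI Pool.Agent.W5h69.PT Function

/-- Let `p` be a prime.

(1) Let `K` be a 2-complex with `H₂(K; ℤ/p) = 0` and `G = π₁(K)`.  Every finitely generated subgroup of
`G` that does not map onto `ℤ` lies in a finitely generated subgroup of `G` without nontrivial
homomorphisms to `ℤ` and to `ℤ/p`.  An element of `G` is killed by all homomorphisms to locally
indicable groups if and only if it is killed by all homomorphisms to locally `p`-indicable groups.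
`G` is locally indicable if and only if it is locally `p`-indicable.

(2) `H₂(K; ℤ/p) = 0` for all subcomplexes `K` of contractible complexes.

(3) Q1 (for all `L`, and for finite `L`) has a positive answer if and only if the fundamental groups
of all subcomplexes of contractible complexes are locally `p`-indicable. -/
theorem result (p : ℕ) (hp : p.Prime) :
    (∀ K : Cx, H2Zero p K →
      (∀ H : Subgroup K.Pi, H.FG → (¬ ∃ f : H →* Multiplicative ℤ, Surjective f) →
        ∃ M : Subgroup K.Pi, H ≤ M ∧ PP {p} M) ∧
      (∀ x : K.Pi, KillZ x ↔ KillP p x) ∧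
      (LocInd K.Pi ↔ PInd p K.Pi)) ∧
    (∀ (K L : Cx) (_ : Sub K L), L.Contractible → H2Zero p K) ∧
    (∀ P : Cx → Prop, (P = fun _ => True) ∨ P = Cx.IsFin →
      (Question P ↔ ∀ (K L : Cx) (_ : Sub K L), L.Contractible → P L → PInd p K.Pi)) := by
  refine ⟨fun K hK => ?_, fun K L i hL => h2zero_of_sub i hL p, fun P _ => question_pind P hp⟩
  have hP : ∀ q ∈ ({p} : Set ℕ), q.Prime := by
    rintro q rfl
    exact hp
  have h : Hull {p} K.Pi := hull_cx hP (by rintro q rfl; exact hK)
  exact ⟨fun H hfg hH => h H (pz_of hfg hH), fun x => (rad_tfae hP h x).2.2 p rfl,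
    locInd_iff hp.ne_one h⟩

end Pool.Agent.Results.MP_cf50d6_gt.OnePrime
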