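import Pool.Agent.W59S.US.Laws

/-!
# A countable simple group that decides Q1 for finite complexes, and a zero-one law

Definitions (`Pool.Agent.R655.LI.Defs`, `Pool.Agent.W59S.US.Main`, `.Union`, `.Laws`):

* `Cx`: a 2-complex with one vertex, 1-cells `V`, 2-cells `R`, attaching words `r : R → FreeGroup V`
  (no finiteness assumption); `X.Pi` its fundamental group; `X.bdry` the cellular boundary operator
  from the 2-chains to the 1-chains (so `X` is acyclic if and only if `X.bdry` is bijective);
  `L.Contractible`: `π₁(L) = 1` and `L.bdry` is injective; `L.del e` is `L` without the open 2-cell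
  `e`; `Sub K L`: `K` is a subcomplex of `L`, `Sub.map` is the homomorphism of fundamental groups;
* `L.IsFin`, `IsCt L`: finitely many, countably many cells;
* `LocInd G`: every nontrivial finitely generated subgroup of `G` maps onto `ℤ`;
* `Question P`: for all contractible `L` with `P L` and all subcomplexes `K` of `L` the group `π₁(K)`
  is locally indicable (Q1 for one-vertex complexes);
* `OneCell L e`: `L` is contractible and its 2-cell `e` is attached along a 1-cell;
* `Tower P X`: `X` is a countable acyclic complex whose fundamental group is simple, and `X` is the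
  union (`Un`) of an ascending sequence of subcomplexes `L n - e n` with injective
  `π₁(L n - e n) → π₁(X)`, `OneCell (L n) (e n)` and `P (L n)`;
* `Univ X`: every subcomplex `K` of every finite contractible complex is (isomorphic to) a subcomplex
  of `X` with injective `π₁(K) → π₁(X)`;
* `Chain S`: the group `S` is the union of an ascending sequence of finitely generated perfect
  subgroups.
-/

set_option autoImplicit false

namespace Pool.Agent.Results.MP_cf50d6_gt.UniversalSimpleGroup

open Pool.Agent.R655.LI Pool.Agent.W59S.US Function
open scoped commutatorElement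

/-- (1) Every subcomplex `K` of a finite (countable) contractible complex is a `π₁`-injective
subcomplex of a countable acyclic complex `X` with simple fundamental group which is an ascending
union of `π₁`-injective subcomplexes `L n - e n` of finite (countable) contractible complexes `L n`
and contains, `π₁`-injectively, the subcomplexes of all finite contractible complexes.

(2) For all these `X` the following are equivalent: `π₁(X)` is locally indicable; `π₁(X)` has a
nontrivial homomorphism to a group without nontrivial finitely generated perfect subgroups; some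
element of `π₁(X)` lies in no finitely generated perfect subgroup; `π₁(X)` is not the union of an
ascending sequence of finitely generated perfect subgroups.

(3) One such `X` decides Q1 for finite complexes: Q1 holds for all finite `L` if and only if `π₁(X)`
is locally indicable.

(4) Q1 holds for all `L` if and only if it holds for all countable `L`, and if and only if `π₁(X)` is
locally indicable for all these `X`.

(5) The zero-one law: if Q1 fails (for some `L`, or for some finite `L`) then for every subcomplex `K`
of every contractible (finite contractible) `L` there are a contractible (finite contractible) `L'`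
and a 2-cell `e` of `L'` attached along a 1-cell such that `K` is a `π₁`-injective subcomplex of
`L' - e` and every finitely generated subgroup of `π₁(K)` lies in a finitely generated perfect
subgroup of `π₁(L' - e)`. -/
theorem result :
    (∀ P : Cx → Prop, (P = Cx.IsFin ∨ P = IsCt) →
      ∀ (K L : Cx) (_ : Sub K L), L.Contractible → P L →
        ∃ X : Cx, Tower P X ∧ Univ X ∧ ∃ u : Sub K X, Injective u.map) ∧
    (∀ (P : Cx → Prop) (X : Cx), Tower P X → List.TFAE [LocInd X.Pi,
      ∃ (A : Type) (_ : Group A) (f : X.Pi →* A), f ≠ 1 ∧
        ∀ M : Subgroup A, M.FG → ⁅M, M⁆ = M → M = ⊥,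
      ∃ x : X.Pi, ∀ M : Subgroup X.Pi, M.FG → ⁅M, M⁆ = M → x ∉ M,
      ¬ Chain X.Pi]) ∧
    (∃ X : Cx, Tower Cx.IsFin X ∧ Univ X) ∧
    (∀ X : Cx, Tower Cx.IsFin X → Univ X → (Question Cx.IsFin ↔ LocInd X.Pi)) ∧
    (Question (fun _ => True) ↔ Question IsCt) ∧
    (Question (fun _ => True) ↔ ∀ X : Cx, Tower IsCt X → LocInd X.Pi) ∧
    (∀ P : Cx → Prop, (P = (fun _ => True) ∨ P = Cx.IsFin) → ¬ Question P →
      ∀ (K L : Cx) (_ : Sub K L), L.Contractible → P L →
        ∃ (L' : Cx) (e : L'.R) (s : Sub K (L'.del e)), OneCell L' e ∧ P L' ∧ Injective s.map ∧
          ∀ H : Subgroup K.Pi, H.FG → ∃ M : Subgroup (L'.del e).Pi,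
            H.map s.map ≤ M ∧ M.FG ∧ ⁅M, M⁆ = M) := by
  refine ⟨?_, fun P X hX => tower_tfae hX, ?_, fun X h1 h2 => question_iff_univ h1 h2, question_ct,
    question_ct.trans (question_iff_towers cls_ct), ?_⟩
  · rintro P (rfl | rfl) K L i hL hPL
    · exact exists_tower cls_fin K L i hL hPL
    · exact exists_tower cls_ct K L i hL hPL
  · obtain ⟨X, h1, h2, _⟩ := exists_tower cls_fin (disc.del (0 : Fin 1)) disc (delSub _ _)
      disc_contractible (cxOf_fin _ _ _)
    exact ⟨X, h1, h2⟩
  · rintro P (rfl | rfl) hQ K L i hL hPL
    · exact zero_one_question _ (fun _ _ _ _ => trivial) (fun _ _ _ _ => trivial) hQ K L i hL hPL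
    · exact zero_one_question _ (fun _ _ h h' => h h') (fun _ _ => wedge_fin) hQ K L i hL hPL

end Pool.Agent.Results.MP_cf50d6_gt.UniversalSimpleGroup
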